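import Pool.Agent.W106.CW.Stm

/-!
Project CW, part SWAP.
-/

set_option autoImplicit false
open Classical

namespace Pool.Agent.W119.CW

open Pool.Agent.W106.CW

variable {V : Type} [Fintype V]

lemma mem_ind {G : SimpleGraph V} {I : Finset V} :
    I ∈ ind G ↔ ∀ a ∈ I, ∀ b ∈ I, a ≠ b → ¬ G.Adj a b := by
  unfold ind
  rw [Finset.mem_filter]
  simp only [Finset.mem_univ, true_and]
  constructor
  · intro h a ha b hb hab
    exact h (Finset.mem_coe.2 ha) (Finset.mem_coe.2 hb) hab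
  · intro h a ha b hb hab
    exact h a (Finset.mem_coe.1 ha) b (Finset.mem_coe.1 hb) hab

lemma mem_free {G : SimpleGraph V} {I : Finset V} {v : V} :
    v ∈ free G I ↔ ∀ w ∈ I, w ≠ v ∧ ¬ G.Adj v w := by
  unfold free cn
  simp only [Finset.mem_filter, Finset.mem_univ, true_and, not_or]

theorem swap : Swap := by
  intro V _ G x h
  rw [Finset.sum_sigma', Finset.sum_sigma']
  refine Finset.sum_bij' (fun p _ => (⟨p.1.erase p.2, p.2⟩ : Σ _ : Finset V, V))
    (fun p _ => (⟨insert p.2 p.1, p.2⟩ : Σ _ : Finset V, V)) ?_ ?_ ?_ ?_ ?_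
  · rintro ⟨I, v⟩ hp
    obtain ⟨hI, hv⟩ := Finset.mem_sigma.1 hp
    dsimp only at hI hv ⊢
    rw [mem_ind] at hI
    refine Finset.mem_sigma.2 ⟨?_, ?_⟩
    · dsimp only
      rw [mem_ind]
      intro a ha b hb hab
      exact hI a (Finset.mem_of_mem_erase ha) b (Finset.mem_of_mem_erase hb) hab
    · dsimp only
      rw [mem_free]
      intro w hw
      have hwv := Finset.ne_of_mem_erase hw
      exact ⟨hwv, hI v hv w (Finset.mem_of_mem_erase hw) hwv.symm⟩
  · rintro ⟨J, v⟩ hp
    obtain ⟨hJ, hv⟩ := Finset.mem_sigma.1 hp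
    dsimp only at hJ hv ⊢
    rw [mem_ind] at hJ
    rw [mem_free] at hv
    refine Finset.mem_sigma.2 ⟨?_, ?_⟩
    · dsimp only
      rw [mem_ind]
      intro a ha b hb hab hadj
      rcases Finset.mem_insert.1 ha with ha1 | ha1
      · rcases Finset.mem_insert.1 hb with hb1 | hb1
        · exact hab (ha1.trans hb1.symm)
        · rw [ha1] at hadj
          exact (hv b hb1).2 hadj
      · rcases Finset.mem_insert.1 hb with hb1 | hb1
        · rw [hb1] at hadj
          exact (hv a ha1).2 hadj.symm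
        · exact hJ a ha1 b hb1 hab hadj
    · exact Finset.mem_insert_self _ _
  · rintro ⟨I, v⟩ hp
    obtain ⟨hI, hv⟩ := Finset.mem_sigma.1 hp
    dsimp only at hI hv ⊢
    rw [Finset.insert_erase hv]
  · rintro ⟨J, v⟩ hp
    obtain ⟨hJ, hv⟩ := Finset.mem_sigma.1 hp
    dsimp only at hJ hv ⊢
    rw [mem_free] at hv
    rw [Finset.erase_insert (fun hvJ => (hv v hvJ).1 rfl)]
  · rintro ⟨I, v⟩ hp
    obtain ⟨hI, hv⟩ := Finset.mem_sigma.1 hp
    dsimp only at hI hv ⊢
    rw [Finset.insert_erase hv]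
    unfold wt
    rw [← Finset.mul_prod_erase I x hv]
    ring

end Pool.Agent.W119.CW
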